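import Mathlib
import Pool.Agent.Y682.XT.Stm

/-!
# Cyclotomic units of a real subfield of a cyclotomic field
-/

set_option autoImplicit false

open NumberField IsCyclotomicExtension.Rat

namespace Pool.Agent.Y363.XT

open Pool.Agent.Y682.XT

open scoped Classical

section perm

variable {q : ℕ} {A : Type*} [CommRing A]

/-- the sign of the action of `h` on the half system `R` -/
noncomputable def sg (A : Type*) [CommRing A] (R : Finset (ZMod q)ˣ) (h : (ZMod q)ˣ) : A :=
  ∏ a ∈ R, if h * a ∈ R then (1 : A) else -1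

lemma sg_mul_self (R : Finset (ZMod q)ˣ) (h : (ZMod q)ˣ) : sg A R h * sg A R h = 1 := by
  unfold sg
  rw [← Finset.prod_mul_distrib]
  apply Finset.prod_eq_one
  intro a _
  split_ifs <;> ring

lemma prod_perm (R : Finset (ZMod q)ˣ) (hR : ∀ a ∈ R, -a ∉ R) (h : (ZMod q)ˣ)
    (hh : ∀ a ∈ R, h * a ∈ R ∨ -(h * a) ∈ R) (f : (ZMod q)ˣ → A) (hf : ∀ x, f (-x) = - f x) :
    ∏ a ∈ R, f (h * a) = sg A R h * ∏ a ∈ R, f a := by
  let g : (ZMod q)ˣ → (ZMod q)ˣ := fun a => if h * a ∈ R then h * a else -(h * a)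
  have hg : ∀ a ∈ R, g a ∈ R := by
    intro a ha
    by_cases h1 : h * a ∈ R
    · simp only [g, if_pos h1]; exact h1
    · simp only [g, if_neg h1]
      exact (hh a ha).resolve_left h1
  have hinj : Set.InjOn g R := by
    intro a ha b hb hab
    have ha : a ∈ R := ha
    have hb : b ∈ R := hb
    have key : g a = h * a ∨ g a = -(h * a) := by
      by_cases h1 : h * a ∈ R
      · left; simp only [g, if_pos h1]
      · right; simp only [g, if_neg h1]
    have key' : g b = h * b ∨ g b = -(h * b) := by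
      by_cases h1 : h * b ∈ R
      · left; simp only [g, if_pos h1]
      · right; simp only [g, if_neg h1]
    rcases key with k | k <;> rcases key' with k' | k' <;> rw [k, k'] at hab
    · exact mul_left_cancel hab
    · exfalso
      have : a = -b := by
        apply mul_left_cancel (a := h)
        rw [hab, mul_neg]
      rw [this] at ha
      exact hR b hb ha
    · exfalso
      have : a = -b := by
        apply mul_left_cancel (a := h)
        rw [mul_neg, ← hab, neg_neg]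
      rw [this] at ha
      exact hR b hb ha
    · have := neg_injective hab
      exact mul_left_cancel this
  have himg : R.image g = R := by
    apply Finset.eq_of_subset_of_card_le
    · intro x hx
      obtain ⟨a, ha, rfl⟩ := Finset.mem_image.1 hx
      exact hg a ha
    · rw [Finset.card_image_of_injOn hinj]
  have h2 : ∏ a ∈ R, f a = ∏ a ∈ R, f (g a) := by
    conv_lhs => rw [← himg]
    rw [Finset.prod_image hinj]
  rw [h2, sg, ← Finset.prod_mul_distrib]
  apply Finset.prod_congr rfl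
  intro a _
  by_cases h1 : h * a ∈ R
  · simp only [g, if_pos h1, one_mul]
  · simp only [g, if_neg h1, hf]
    ring

end perm

section theta

variable (q : ℕ) [NeZero q] (L : Type) [Field L] [NumberField L] [IsCyclotomicExtension {q} ℚ L]

/-- the powers of the root of unity -/
noncomputable def ee (x : ZMod q) : 𝓞 L := (H300.HW.zz q L) ^ x.val

lemma ee_natCast (m : ℕ) : ee q L (m : ZMod q) = (H300.HW.zz q L) ^ m := by
  unfold ee
  rw [ZMod.val_natCast]
  conv_rhs => rw [← Nat.mod_add_div m q, pow_add, pow_mul, (H300.HW.zz_prim q L).pow_eq_one,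
    one_pow, mul_one]

lemma ee_add (x y : ZMod q) : ee q L (x + y) = ee q L x * ee q L y := by
  have h := ee_natCast q L (x.val + y.val)
  rw [Nat.cast_add, ZMod.natCast_zmod_val, ZMod.natCast_zmod_val, pow_add] at h
  exact h

lemma ee_zero : ee q L 0 = 1 := by
  unfold ee
  rw [ZMod.val_zero, pow_zero]

lemma ee_neg_mul (x : ZMod q) : ee q L (-x) * ee q L x = 1 := by
  rw [← ee_add, neg_add_cancel, ee_zero]

lemma smul_ee (σ : Gal(L/ℚ)) (x : ZMod q) :
    σ • ee q L x = ee q L ((galEquivZMod q L σ : (ZMod q)ˣ) * x) := by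
  have h : ee q L ((galEquivZMod q L σ : (ZMod q)ˣ) * x) =
      ee q L (((galEquivZMod q L σ).val.val * x.val : ℕ) : ZMod q) := by
    congr 1
    rw [Nat.cast_mul, ZMod.natCast_zmod_val, ZMod.natCast_zmod_val]
  rw [h, ee_natCast, pow_mul, ← H300.HW.smul_zz]
  unfold ee
  rw [smul_pow']

/-- half of `x` -/
def hf (x : ZMod q) : ZMod q := x * (((q + 1) / 2 : ℕ) : ZMod q)

/-- the number `ζ^(x/2) - ζ^(-x/2)` -/
noncomputable def te (x : ZMod q) : 𝓞 L := ee q L (hf q x) - ee q L (-hf q x)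

lemma te_neg (x : ZMod q) : te q L (-x) = - te q L x := by
  unfold te hf
  rw [neg_mul, neg_neg, neg_sub]

lemma smul_te (σ : Gal(L/ℚ)) (x : ZMod q) :
    σ • te q L x = te q L ((galEquivZMod q L σ : (ZMod q)ˣ) * x) := by
  unfold te hf
  rw [smul_sub, smul_ee, smul_ee, mul_neg, mul_assoc]

variable {q}

lemma hf_add_hf (hq : Odd q) (x : ZMod q) : hf q x + hf q x = x := by
  obtain ⟨k, rfl⟩ := hq
  unfold hf
  rw [← mul_add, ← Nat.cast_add]
  have : (2 * k + 1 + 1) / 2 + (2 * k + 1 + 1) / 2 = 1 + (2 * k + 1) := by omega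
  rw [this, Nat.cast_add, ZMod.natCast_self, Nat.cast_one, add_zero, mul_one]

lemma te_eq (hq : Odd q) (x : ZMod q) : te q L x = ee q L (-hf q x) * (ee q L x - 1) := by
  unfold te
  have h1 : ee q L (-hf q x) * ee q L x = ee q L (hf q x) := by
    rw [← ee_add]
    congr 1
    conv_lhs => rw [← hf_add_hf hq x]
    rw [hf_add_hf hq x]
    nth_rewrite 2 [← hf_add_hf hq x]
    ring
  rw [mul_sub, h1, mul_one]

lemma isUnit_ee (x : ZMod q) : IsUnit (ee q L x) :=
  IsUnit.of_mul_eq_one (ee q L (-x)) (by rw [mul_comm, ee_neg_mul])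

lemma associated_te (hq : Odd q) (x : (ZMod q)ˣ) :
    Associated (te q L x) (H300.HW.zz q L - 1) := by
  rw [te_eq L hq]
  have h1 : Associated (ee q L (-hf q (x : ZMod q)) * (ee q L (x : ZMod q) - 1))
      (ee q L (x : ZMod q) - 1) := by
    obtain ⟨u, hu⟩ := isUnit_ee L (-hf q (x : ZMod q))
    rw [← hu]
    exact associated_unit_mul_left _ _ u.isUnit
  refine h1.trans ?_
  have h2 : (ZMod.val (x : ZMod q)).Coprime q := ZMod.val_coe_unit_coprime x
  exact ((H300.HW.zz_prim q L).associated_sub_one_pow_sub_one_of_coprime h2).symm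

lemma phi_te (hq : Odd q) (φ : L →+* ℂ)
    (hφ : φ ((H300.HW.zz q L : 𝓞 L) : L) = Complex.exp (2 * Real.pi * Complex.I / q))
    (x : ZMod q) : φ ((te q L x : 𝓞 L) : L) = Complex.I * (th q x : ℂ) := by
  have hq0 : (q : ℂ) ≠ 0 := Nat.cast_ne_zero.2 (NeZero.ne q)
  have h1 : φ ((ee q L (hf q x) : 𝓞 L) : L) =
      (-1) ^ x.val * Complex.exp ((Real.pi * x.val / q : ℝ) * Complex.I) := by
    have h2 : hf q x = ((x.val * ((q + 1) / 2) : ℕ) : ZMod q) := by
      unfold hf
      rw [Nat.cast_mul, ZMod.natCast_zmod_val]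
    rw [h2, ee_natCast]
    have h3 : φ (((H300.HW.zz q L ^ (x.val * ((q + 1) / 2)) : 𝓞 L)) : L) =
        (φ ((H300.HW.zz q L : 𝓞 L) : L)) ^ (x.val * ((q + 1) / 2)) := by
      rw [← map_pow]
      rfl
    rw [h3, hφ, ← Complex.exp_nat_mul, ← Complex.exp_pi_mul_I, ← Complex.exp_nat_mul,
      ← Complex.exp_add]
    congr 1
    obtain ⟨k, rfl⟩ := hq
    have h4 : (2 * k + 1 + 1) / 2 = k + 1 := by omega
    rw [h4]
    push_cast at hq0 ⊢
    have hinv : (2 * (k : ℂ) + 1) * (2 * (k : ℂ) + 1)⁻¹ = 1 := mul_inv_cancel₀ hq0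
    simp only [div_eq_mul_inv]
    linear_combination ((x.val : ℂ) * Real.pi * Complex.I) * hinv
  have h5 : φ ((ee q L (-hf q x) : 𝓞 L) : L) =
      (-1) ^ x.val * Complex.exp (-((Real.pi * x.val / q : ℝ) : ℂ) * Complex.I) := by
    have h6 : φ ((ee q L (-hf q x) : 𝓞 L) : L) * φ ((ee q L (hf q x) : 𝓞 L) : L) = 1 := by
      rw [← map_mul, ← map_mul, ee_neg_mul, map_one, map_one]
    have h7 : ((-1 : ℂ) ^ x.val * Complex.exp (-((Real.pi * x.val / q : ℝ) : ℂ) * Complex.I)) *
        φ ((ee q L (hf q x) : 𝓞 L) : L) = 1 := by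
      rw [h1, mul_mul_mul_comm, ← Complex.exp_add, ← mul_pow]
      have h10 : -((Real.pi * x.val / q : ℝ) : ℂ) * Complex.I +
          ((Real.pi * x.val / q : ℝ) : ℂ) * Complex.I = 0 := by ring
      rw [h10, Complex.exp_zero]
      norm_num
    have h8 : φ ((ee q L (hf q x) : 𝓞 L) : L) ≠ 0 := right_ne_zero_of_mul_eq_one h7
    exact mul_right_cancel₀ h8 (h6.trans h7.symm)
  have h9 : ((te q L x : 𝓞 L) : L) = ((ee q L (hf q x) : 𝓞 L) : L) - ((ee q L (-hf q x) : 𝓞 L) : L) :=
    map_sub _ _ _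
  rw [h9, map_sub, h1, h5, Complex.exp_mul_I, Complex.exp_mul_I, Complex.cos_neg, Complex.sin_neg]
  unfold th
  push_cast
  ring

lemma th_ne_zero (x : (ZMod q)ˣ) (hq : 1 < q) : th q (x : ZMod q) ≠ 0 := by
  unfold th
  have hx : (x : ZMod q) ≠ 0 := by
    have : Nontrivial (ZMod q) := ZMod.nontrivial_iff.2 hq.ne'
    exact x.ne_zero
  have h0 : 0 < ((x : ZMod q).val : ℝ) := by
    have : (x : ZMod q).val ≠ 0 := by
      rw [Ne, ZMod.val_eq_zero]
      exact hx
    exact_mod_cast Nat.pos_of_ne_zero this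
  have h1 : ((x : ZMod q).val : ℝ) < q := by exact_mod_cast ZMod.val_lt _
  have hq0 : (0 : ℝ) < q := by exact_mod_cast (NeZero.pos q)
  have h2 : 0 < Real.sin (Real.pi * (x : ZMod q).val / q) := by
    apply Real.sin_pos_of_pos_of_lt_pi
    · positivity
    · rw [div_lt_iff₀ hq0]
      exact mul_lt_mul_of_pos_left h1 Real.pi_pos
  have h3 : ((-1 : ℝ)) ^ (x : ZMod q).val ≠ 0 := pow_ne_zero _ (by norm_num)
  exact mul_ne_zero h3 (by positivity)

end theta

theorem s_units : S_UNITS := by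
  intro q _ hq hq1 L _ _ _ K φ hφ _ R hR hRneg b
  have : IsGalois ℚ L := IsCyclotomicExtension.isGalois {q} ℚ L
  -- the numbers are nonzero
  have hne : ∀ x : (ZMod q)ˣ, te q L (x : ZMod q) ≠ 0 := by
    intro x h
    have h1 := phi_te L hq φ hφ (x : ZMod q)
    have h0 : φ (((0 : 𝓞 L)) : L) = 0 := by simp
    rw [h, h0] at h1
    have h2 := mul_eq_zero.1 h1.symm
    rcases h2 with h2 | h2
    · exact Complex.I_ne_zero h2
    · exact th_ne_zero x hq1 (by exact_mod_cast h2)
  -- the unit of the big field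
  have hass : Associated (∏ a ∈ R, te q L (a : ZMod q)) (∏ a ∈ R, te q L ((b * a : (ZMod q)ˣ) : ZMod q)) := by
    apply Associated.prod
    intro a _
    exact (associated_te L hq a).trans (associated_te L hq (b * a)).symm
  obtain ⟨U, hU⟩ := hass
  -- the action of the Galois group
  have hgal : ∀ c : (ZMod q)ˣ, (∏ a ∈ R, te q L ((c * a : (ZMod q)ˣ) : ZMod q)) *
      ((galEquivZMod q L).symm c • (U : 𝓞 L)) =
      ∏ a ∈ R, te q L ((c * b * a : (ZMod q)ˣ) : ZMod q) := by
    intro c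
    have h1 := congrArg (fun z : 𝓞 L => (galEquivZMod q L).symm c • z) hU
    simp only [smul_mul', Finset.smul_prod', smul_te, MulEquiv.apply_symm_apply] at h1
    rw [show ∏ a ∈ R, te q L ((c * a : (ZMod q)ˣ) : ZMod q) =
      ∏ a ∈ R, te q L ((c : ZMod q) * (a : ZMod q)) from
        Finset.prod_congr rfl fun a _ => by rw [Units.val_mul]]
    rw [h1]
    apply Finset.prod_congr rfl
    intro a _
    rw [Units.val_mul, Units.val_mul, Units.val_mul, mul_assoc]
  have hprodne : ∀ c : (ZMod q)ˣ, ∏ a ∈ R, te q L ((c * a : (ZMod q)ˣ) : ZMod q) ≠ 0 := by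
    intro c
    exact Finset.prod_ne_zero_iff.2 fun a _ => hne _
  -- invariance
  have hinv : ∀ σ : K.fixingSubgroup, σ • (U : 𝓞 L) = U := by
    rintro ⟨σ, hσ⟩
    change σ • (U : 𝓞 L) = U
    obtain ⟨h, rfl⟩ : ∃ h, σ = (galEquivZMod q L).symm h :=
      ⟨galEquivZMod q L σ, by rw [MulEquiv.symm_apply_apply]⟩
    have hh : ∀ a ∈ R, h * a ∈ R ∨ -(h * a) ∈ R := by
      intro a ha
      rw [hR, map_mul]
      exact mul_mem hσ ((hR a).1 (Or.inl ha))
    have h1 := hgal h
    have h2 := prod_perm R hRneg h hh (fun x => te q L (x : ZMod q))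
      (fun x => by simp only [Units.val_neg]; exact te_neg q L _)
    have h3 := prod_perm R hRneg h hh (fun x => te q L ((b * x : (ZMod q)ˣ) : ZMod q))
      (fun x => by simp only [mul_neg, Units.val_neg]; exact te_neg q L _)
    have h4 : ∏ a ∈ R, te q L ((h * b * a : (ZMod q)ˣ) : ZMod q) =
        ∏ a ∈ R, te q L ((b * (h * a) : (ZMod q)ˣ) : ZMod q) := by
      apply Finset.prod_congr rfl
      intro a _
      congr 2
      rw [mul_comm h b, mul_assoc]
    rw [h4, h3, h2, ← hU, mul_assoc] at h1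
    have h5 := mul_left_cancel₀ (a := sg (𝓞 L) R h) (fun h0 => by
      have := sg_mul_self (A := 𝓞 L) R h
      rw [h0, mul_zero] at this
      exact zero_ne_one this) h1
    refine mul_left_cancel₀ (a := ∏ a ∈ R, te q L (a : ZMod q)) ?_ h5
    exact Finset.prod_ne_zero_iff.2 fun a _ => hne _
  have hinv' : ∀ σ : K.fixingSubgroup, σ • ((U⁻¹ : (𝓞 L)ˣ) : 𝓞 L) = ((U⁻¹ : (𝓞 L)ˣ) : 𝓞 L) := by
    intro σ
    have h1 : (σ • (U : 𝓞 L)) * (σ • ((U⁻¹ : (𝓞 L)ˣ) : 𝓞 L)) = 1 := by
      rw [← smul_mul', Units.mul_inv, smul_one]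
    rw [hinv] at h1
    have h2 : (U : 𝓞 L) * ((U⁻¹ : (𝓞 L)ˣ) : 𝓞 L) = 1 := Units.mul_inv U
    exact mul_left_cancel₀ U.ne_zero (h1.trans h2.symm)
  have := H300.HW.invariant L K
  obtain ⟨u0, hu0⟩ := Algebra.IsInvariant.isInvariant (A := 𝓞 K) (G := K.fixingSubgroup) (U : 𝓞 L) hinv
  obtain ⟨v0, hv0⟩ := Algebra.IsInvariant.isInvariant (A := 𝓞 K) (G := K.fixingSubgroup)
    ((U⁻¹ : (𝓞 L)ˣ) : 𝓞 L) hinv'
  have huv : u0 * v0 = 1 := by
    apply FaithfulSMul.algebraMap_injective (𝓞 K) (𝓞 L)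
    rw [map_mul, hu0, hv0, map_one, Units.mul_inv]
  refine ⟨⟨u0, v0, huv, by rw [mul_comm]; exact huv⟩, fun c => ?_⟩
  have hval : (((u0 : 𝓞 K) : K) : L) = ((U : 𝓞 L) : L) := by
    rw [← hu0]
    rfl
  change φ ((galEquivZMod q L).symm c (((u0 : 𝓞 K) : K) : L)) = _
  rw [hval]
  have hact : (galEquivZMod q L).symm c ((U : 𝓞 L) : L) =
      (((galEquivZMod q L).symm c • (U : 𝓞 L) : 𝓞 L) : L) := rfl
  rw [hact]
  have h1 := congrArg (fun z : 𝓞 L => φ ((z : 𝓞 L) : L)) (hgal c)
  simp only [map_mul, map_prod, phi_te L hq φ hφ] at h1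
  rw [Finset.prod_mul_distrib, Finset.prod_mul_distrib, Finset.prod_const, mul_assoc] at h1
  have h2 := mul_left_cancel₀ (pow_ne_zero _ Complex.I_ne_zero) h1
  push_cast
  rw [Finset.prod_div_distrib, eq_div_iff, mul_comm]
  · exact h2
  · apply Finset.prod_ne_zero_iff.2
    intro a _
    have := th_ne_zero (c * a) hq1
    exact_mod_cast this

end Pool.Agent.Y363.XT
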